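import Pool.Agent.Y986.SG.Iter

set_option autoImplicit false

open Complex Polynomial Filter Topology

namespace Pool.Agent.Y986.SG

open Pool.Agent.Y245.SG

/-! ### formal differentiation of the forms -/

/-- the last term of `step` -/
noncomputable def lastT (N : ℕ) (P : ℕ → ℤ[X]) : ℕ → ℤ[X]
  | 0 => 0
  | j + 1 => C ((N : ℤ) - j) * P j

theorem step_eq (N : ℕ) (P : ℕ → ℤ[X]) (i : ℕ) : step N P i =
    X * derivative (P i) - C ((N : ℤ) - i) * P i - C ((i : ℤ) + 1) * (X * P (i + 1)) + lastT N P i := by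
  cases i <;> rfl

/-- `D` on a form in any ring with derivation -/
theorem step_formal {R A : Type} [CommRing R] [CommRing A] [Algebra R A] (D : Derivation R A A) (φ : ℤ[X] →+* A)
    (x y : A) (hφ : ∀ p : ℤ[X], D (φ p) = φ (X * derivative p)) (hx : D x = -(φ X * y)) (hy : D y = x - y)
    (N : ℕ) (P : ℕ → ℤ[X]) (hP : P (N + 1) = 0) :
    D (∑ i ∈ Finset.range (N + 1), φ (P i) * x ^ i * y ^ (N - i)) =
      ∑ i ∈ Finset.range (N + 1), φ (step N P i) * x ^ i * y ^ (N - i) := by
  have hB : ∑ i ∈ Finset.range (N + 1), (i : A) * φ (P i) * φ X * x ^ (i - 1) * y ^ (N - i + 1) =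
      ∑ i ∈ Finset.range (N + 1), ((i : A) + 1) * φ (P (i + 1)) * φ X * x ^ i * y ^ (N - i) := by
    rw [Finset.sum_range_succ', Finset.sum_range_succ]
    rw [hP, map_zero]
    simp only [Nat.cast_zero, zero_mul, mul_zero, add_zero]
    refine Finset.sum_congr rfl fun i hi => ?_
    have hi' := Finset.mem_range.mp hi
    have e1 : N - (i + 1) + 1 = N - i := by omega
    rw [e1, Nat.add_sub_cancel]
    push_cast
    ring
  have hC : ∑ i ∈ Finset.range (N + 1), ((N : A) - i) * φ (P i) * x ^ (i + 1) * y ^ (N - i - 1) =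
      ∑ i ∈ Finset.range (N + 1), φ (lastT N P i) * x ^ i * y ^ (N - i) := by
    rw [Finset.sum_range_succ, Finset.sum_range_succ' _ N]
    simp only [sub_self, zero_mul, add_zero, map_zero, lastT]
    refine Finset.sum_congr rfl fun i hi => ?_
    have e1 : φ (C ((N : ℤ) - i)) = (N : A) - i := by
      rw [show (C ((N : ℤ) - i) : ℤ[X]) = ((N : ℤ[X]) - i) by simp, map_sub, map_natCast, map_natCast]
    rw [map_mul, e1]
    have e2 : N - (i + 1) = N - i - 1 := by omega
    rw [e2]
  rw [map_sum]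
  have hterm : ∀ i ∈ Finset.range (N + 1), D (φ (P i) * x ^ i * y ^ (N - i)) =
      (φ (X * derivative (P i)) - ((N : A) - i) * φ (P i)) * x ^ i * y ^ (N - i) -
        (i : A) * φ (P i) * φ X * x ^ (i - 1) * y ^ (N - i + 1) +
        ((N : A) - i) * φ (P i) * x ^ (i + 1) * y ^ (N - i - 1) := by
    intro i hi
    have hi' : i ≤ N := by have := Finset.mem_range.mp hi; omega
    rw [Derivation.leibniz, Derivation.leibniz, Derivation.leibniz_pow, Derivation.leibniz_pow, hφ, hx, hy]
    simp only [smul_eq_mul, nsmul_eq_mul]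
    have e1 : ((N - i : ℕ) : A) = (N : A) - i := by rw [Nat.cast_sub hi']
    rw [e1]
    have e2 : ((N : A) - i) * y ^ (N - i) = ((N : A) - i) * (y ^ (N - i - 1) * y) := by
      rcases Nat.eq_zero_or_pos (N - i) with h0 | h0
      · have : i = N := by omega
        subst this
        simp
      · rw [← pow_succ, Nat.sub_add_cancel h0]
    have e3 : y ^ (N - i + 1) = y ^ (N - i) * y := pow_succ _ _
    rw [e3]
    linear_combination (φ (P i) * x ^ i) * e2
  rw [Finset.sum_congr rfl hterm, Finset.sum_add_distrib, Finset.sum_sub_distrib, hB, hC, ← Finset.sum_sub_distrib,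
    ← Finset.sum_add_distrib]
  refine Finset.sum_congr rfl fun i hi => ?_
  have e1 : φ (C ((N : ℤ) - i)) = (N : A) - i := by
    rw [show (C ((N : ℤ) - i) : ℤ[X]) = ((N : ℤ[X]) - i) by simp, map_sub, map_natCast, map_natCast]
  have e2 : φ (C ((i : ℤ) + 1)) = (i : A) + 1 := by
    rw [show (C ((i : ℤ) + 1) : ℤ[X]) = ((i : ℤ[X]) + 1) by simp, map_add, map_natCast, map_one]
  rw [step_eq, map_add, map_sub, map_sub, map_mul φ (C ((N : ℤ) - i)), map_mul φ (C ((i : ℤ) + 1)), map_mul φ X (P (i + 1)),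
    e1, e2]
  ring

/-- the ring homomorphism to power series -/
noncomputable def toPS : ℤ[X] →+* PowerSeries ℚ :=
  (Polynomial.coeToPowerSeries.ringHom (R := ℚ)).comp (Polynomial.mapRingHom (Int.castRingHom ℚ))

theorem toPS_apply (p : ℤ[X]) : toPS p = ((p.map (Int.castRingHom ℚ) : ℚ[X]) : PowerSeries ℚ) := rfl

theorem toPS_X : toPS X = PowerSeries.X := by
  rw [toPS_apply, Polynomial.map_X, Polynomial.coe_X]

/-- the derivation `X d/dX` -/
noncomputable def XD : Derivation ℚ (PowerSeries ℚ) (PowerSeries ℚ) :=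
  (PowerSeries.X : PowerSeries ℚ) • PowerSeries.derivative ℚ

theorem XD_apply (f : PowerSeries ℚ) : XD f = PowerSeries.X * PowerSeries.derivative ℚ f := rfl

theorem coeff_XD (f : PowerSeries ℚ) (k : ℕ) : PowerSeries.coeff k (XD f) = k * PowerSeries.coeff k f := by
  rw [XD_apply]
  cases k with
  | zero => simp
  | succ k =>
    rw [PowerSeries.coeff_succ_X_mul, PowerSeries.coeff_derivative]
    push_cast
    ring

theorem XD_toPS (p : ℤ[X]) : XD (toPS p) = toPS (X * derivative p) := by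
  rw [XD_apply, toPS_apply, PowerSeries.derivative_coe, map_mul, toPS_X, toPS_apply, Polynomial.derivative_map]

theorem XD_bs0 : XD (bs 0) = -(toPS X * bs 1) := by
  rw [toPS_X]
  ext k
  rw [coeff_XD, map_neg]
  cases k with
  | zero => simp
  | succ k =>
    rw [PowerSeries.coeff_succ_X_mul, bs, bs, PowerSeries.coeff_mk, PowerSeries.coeff_mk, add_zero]
    have h1 : ((k + 1).factorial : ℚ) ≠ 0 := by positivity
    have h2 : (k.factorial : ℚ) ≠ 0 := by positivity
    have h3 : ((k + 1).factorial : ℚ) = ((k : ℚ) + 1) * k.factorial := by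
      rw [Nat.factorial_succ]; push_cast; ring
    have h4 : ((k : ℚ) + 1) ≠ 0 := by positivity
    rw [h3]
    push_cast
    field_simp
    ring

theorem XD_bs1 : XD (bs 1) = bs 0 - bs 1 := by
  ext k
  rw [coeff_XD, map_sub, bs, bs, PowerSeries.coeff_mk, PowerSeries.coeff_mk, add_zero]
  have h2 : (k.factorial : ℚ) ≠ 0 := by positivity
  have h3 : ((k + 1).factorial : ℚ) = ((k : ℚ) + 1) * k.factorial := by
    rw [Nat.factorial_succ]; push_cast; ring
  have h4 : ((k : ℚ) + 1) ≠ 0 := by positivity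
  rw [h3]
  field_simp
  ring

theorem LamF_eq (N : ℕ) (P : ℕ → ℤ[X]) :
    LamF N P = ∑ i ∈ Finset.range (N + 1), toPS (P i) * bs 0 ^ i * bs 1 ^ (N - i) := rfl

theorem LamF_step (N : ℕ) (P : ℕ → ℤ[X]) (hP : P (N + 1) = 0) : LamF N (step N P) = XD (LamF N P) := by
  rw [LamF_eq, LamF_eq, step_formal XD toPS (bs 0) (bs 1) XD_toPS XD_bs0 XD_bs1 N P hP]

theorem dvd_LamF (N T : ℕ) (P : ℕ → ℤ[X]) (hz : ∀ k i, N < i → Pk N P k i = 0)
    (hT : (PowerSeries.X : PowerSeries ℚ) ^ T ∣ LamF N P) (k : ℕ) :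
    (PowerSeries.X : PowerSeries ℚ) ^ T ∣ LamF N (Pk N P k) := by
  induction k with
  | zero => exact hT
  | succ k ih =>
    rw [Pk_succ, LamF_step N _ (hz k (N + 1) (Nat.lt_succ_self N)), PowerSeries.X_pow_dvd_iff]
    intro j hj
    rw [coeff_XD, PowerSeries.X_pow_dvd_iff.mp ih j hj, mul_zero]

/-! ### Cramer's rule -/

theorem cramer {A : Type} [CommRing A] {n : ℕ} (M : Matrix (Fin n) (Fin n) ℤ[X]) (ψ : ℤ[X] →+* A) (u : Fin n → A)
    (i : Fin n) : ψ M.det * u i = ∑ k, ψ (M.adjugate i k) * ∑ j, ψ (M k j) * u j := by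
  have h1 : (ψ.mapMatrix M).adjugate * ψ.mapMatrix M = (ψ.mapMatrix M).det • (1 : Matrix (Fin n) (Fin n) A) :=
    Matrix.adjugate_mul _
  have h2 : (((ψ.mapMatrix M).adjugate * ψ.mapMatrix M).mulVec u) i =
      (((ψ.mapMatrix M).det • (1 : Matrix (Fin n) (Fin n) A)).mulVec u) i := by rw [h1]
  rw [← Matrix.mulVec_mulVec, Matrix.smul_mulVec, Matrix.one_mulVec, Pi.smul_apply, smul_eq_mul, ← RingHom.map_det,
    ← RingHom.map_adjugate] at h2
  rw [← h2]
  rfl

/-! ### degrees -/

theorem natDegree_step (N : ℕ) (P : ℕ → ℤ[X]) (d : ℕ) (h : ∀ i, (P i).natDegree ≤ d) (i : ℕ) :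
    (step N P i).natDegree ≤ d + 1 := by
  have hX : ∀ q : ℤ[X], q.natDegree ≤ d → (X * q).natDegree ≤ d + 1 := fun q hq => by
    have := Polynomial.natDegree_mul_le_of_le (Polynomial.natDegree_X_le (R := ℤ)) hq
    omega
  have hC : ∀ (c : ℤ) (q : ℤ[X]) (e : ℕ), q.natDegree ≤ e → (C c * q).natDegree ≤ e := fun c q e hq =>
    (Polynomial.natDegree_C_mul_le _ _).trans hq
  rw [step_eq]
  have h1 : (X * derivative (P i)).natDegree ≤ d + 1 :=
    hX _ ((Polynomial.natDegree_derivative_le _).trans ((Nat.sub_le _ _).trans (h i)))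
  have h2 : (C ((N : ℤ) - i) * P i).natDegree ≤ d + 1 := (hC _ _ d (h i)).trans (Nat.le_succ d)
  have h3 : (C ((i : ℤ) + 1) * (X * P (i + 1))).natDegree ≤ d + 1 := hC _ _ _ (hX _ (h (i + 1)))
  have h4 : (lastT N P i).natDegree ≤ d + 1 := by
    cases i with
    | zero => simp [lastT]
    | succ j => exact (hC _ _ d (h j)).trans (Nat.le_succ d)
  have h5 := Polynomial.natDegree_sub_le_of_le (Polynomial.natDegree_sub_le_of_le h1 h2) h3
  simp only [max_self] at h5
  exact Polynomial.natDegree_add_le_of_degree_le h5 h4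

theorem natDegree_Pk (N : ℕ) (P : ℕ → ℤ[X]) (n : ℕ) (h : ∀ i, (P i).natDegree ≤ n) (k i : ℕ) :
    (Pk N P k i).natDegree ≤ n + k := by
  induction k generalizing i with
  | zero => exact h i
  | succ k ih => rw [Pk_succ]; exact natDegree_step N _ (n + k) ih i

theorem natDegree_Det (N : ℕ) (P : ℕ → ℤ[X]) (n : ℕ) (h : ∀ i, (P i).natDegree ≤ n) :
    (Det N P).natDegree ≤ (N + 1) * (n + N) := by
  rw [Det, Matrix.det_apply]
  refine Polynomial.natDegree_sum_le_of_forall_le _ _ fun σ _ => ?_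
  refine (Polynomial.natDegree_smul_le _ _).trans ?_
  refine (Polynomial.natDegree_prod_le _ _).trans ?_
  calc ∑ i : Fin (N + 1), (Matrix.of (fun k i : Fin (N + 1) => Pk N P k i) (σ i) i).natDegree
      ≤ ∑ _i : Fin (N + 1), (n + N) := by
        refine Finset.sum_le_sum fun i _ => ?_
        rw [Matrix.of_apply]
        exact (natDegree_Pk N P n h _ _).trans (by have := (σ i).isLt; omega)
    _ = (N + 1) * (n + N) := by simp

/-! ### multiplicities -/

theorem order_poly (p : ℂ[X]) (hp : p ≠ 0) (α : ℂ) (r : ℕ)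
    (h : (r : ℕ∞) ≤ analyticOrderAt (fun z => p.eval z) α) : (X - C α) ^ r ∣ p := by
  obtain ⟨q, hq1, hq2⟩ := Polynomial.exists_eq_pow_rootMultiplicity_mul_and_not_dvd p hp α
  set m := p.rootMultiplicity α with hm
  have hqα : q.eval α ≠ 0 := fun h0 => hq2 (Polynomial.dvd_iff_isRoot.mpr h0)
  have e1 : (fun z => p.eval z) = (fun z => (z - α) ^ m) * (fun z => q.eval z) := by
    funext z
    rw [Pi.mul_apply]
    conv_lhs => rw [hq1]
    simp
  have hana1 : AnalyticAt ℂ (fun z : ℂ => (z - α) ^ m) α := by fun_prop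
  have hana2 : AnalyticAt ℂ (fun z : ℂ => q.eval z) α :=
    (Polynomial.differentiable q).analyticAt α
  have h2 : analyticOrderAt (fun z => p.eval z) α = m := by
    rw [e1, analyticOrderAt_mul hana1 hana2]
    have h3 : analyticOrderAt (fun z : ℂ => q.eval z) α = 0 := by
      rw [hana2.analyticOrderAt_eq_zero]; exact hqα
    have h4 : analyticOrderAt (fun z : ℂ => (z - α) ^ m) α = m := by
      rw [hana1.analyticOrderAt_eq_natCast]
      exact ⟨fun _ => 1, analyticAt_const, one_ne_zero, Filter.Eventually.of_forall fun z => by simp⟩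
    rw [h3, h4, add_zero]
  rw [h2] at h
  have h5 : r ≤ m := by exact_mod_cast h
  rw [hq1]
  exact (pow_dvd_pow _ h5).trans (dvd_mul_right _ _)

theorem order_sum {ι : Type} (s : Finset ι) (f : ι → ℂ → ℂ) (w : ℂ) (r : ℕ∞)
    (h : ∀ i ∈ s, r ≤ analyticOrderAt (f i) w) : r ≤ analyticOrderAt (∑ i ∈ s, f i) w := by
  classical
  induction s using Finset.induction_on with
  | empty =>
    have : analyticOrderAt (∑ i ∈ (∅ : Finset ι), f i) w = ⊤ := by
      rw [analyticOrderAt_eq_top]; exact Filter.Eventually.of_forall fun z => by simp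
    rw [this]; exact le_top
  | insert a s ha ih =>
    rw [Finset.sum_insert ha]
    exact (le_min (h a (Finset.mem_insert_self a s)) (ih fun i hi => h i (Finset.mem_insert_of_mem hi))).trans
      le_analyticOrderAt_add

theorem fin_sum (N : ℕ) (f : ℕ → ℂ) : ∑ j : Fin (N + 1), f j = ∑ j ∈ Finset.range (N + 1), f j :=
  (Finset.sum_range f).symm

theorem rank : S_RANK := by
  intro hB hBNC hSTEP hSOL1 _ N s n P w hN hs hn hP hdet hdeg hdvd hw
  have hsol := hSOL1 hB
  set b0 : ℂ → ℂ := fun ω => Bn 0 (exp ω) with hb0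
  set b1 : ℂ → ℂ := fun ω => Bn 1 (exp ω) with hb1
  have hit := iter hSTEP N P b0 b1 hP hsol
  have hz : ∀ k i, N < i → Pk N P k i = 0 := fun k => (hit k).1
  -- value at `w`
  have hval : ∀ Q : ℕ → ℤ[X], lamG N Q b0 b1 w = aeval (exp w) (Q N) * Bn 0 (exp w) ^ N := by
    intro Q
    rw [lamG, Finset.sum_range_succ]
    have e1 : ∑ i ∈ Finset.range N, aeval (exp w) (Q i) * b0 w ^ i * b1 w ^ (N - i) = 0 := by
      refine Finset.sum_eq_zero fun i hi => ?_
      have hi' := Finset.mem_range.mp hi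
      have e2 : b1 w = 0 := hw
      rw [e2, zero_pow (by omega), mul_zero]
    rw [e1, zero_add, Nat.sub_self, pow_zero, mul_one]
  have hb0w : Bn 0 (exp w) ≠ 0 := fun h0 => hBNC hB 0 (exp w) ⟨h0, by rw [zero_add]; exact hw⟩
  by_contra hcon
  push Not at hcon
  have hvan : ∀ k ≤ N ^ 2 + N + n / s, aeval (exp w) (Pk N P k N) = 0 := by
    intro k hk
    refine hcon k hk ?_
    rw [(hit k).2, hval]
  have hitv : ∀ k ≤ N ^ 2 + N + n / s, lamG N (Pk N P k) b0 b1 w = 0 := by
    intro k hk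
    rw [hval, hvan k hk, zero_mul]
  -- orders
  have hdiff : ∀ k, Differentiable ℂ (lamG N (Pk N P k) b0 b1) := fun k =>
    lamG_diff hSTEP N (Pk N P k) b0 b1 (hz k) hsol
  have hPkadd : ∀ k j, Pk N (Pk N P k) j = Pk N P (j + k) := by
    intro k j
    rw [Pk, Pk, Pk, Function.iterate_add_apply]
  have hord : ∀ k ≤ N, ((N ^ 2 + n / s + 1 : ℕ) : ℕ∞) ≤ analyticOrderAt (lamG N (Pk N P k) b0 b1) w := by
    intro k hk
    rw [natCast_le_analyticOrderAt_iff_iteratedDeriv_eq_zero ((hdiff k).analyticAt w)]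
    intro j hj
    rw [(iter hSTEP N (Pk N P k) b0 b1 (hz k) hsol j).2, hPkadd]
    exact hitv _ (by omega)
  -- Cramer
  set M : Matrix (Fin (N + 1)) (Fin (N + 1)) ℤ[X] := Matrix.of fun k i : Fin (N + 1) => Pk N P k i with hM
  have hMdet : M.det = Det N P := rfl
  have hcr : ∀ ω, aeval (exp ω) (Det N P) * b0 ω ^ N =
      ∑ k : Fin (N + 1), aeval (exp ω) (M.adjugate (Fin.last N) k) * lamG N (Pk N P k) b0 b1 ω := by
    intro ω
    have h1 := cramer M (aeval (exp ω) : ℤ[X] →ₐ[ℤ] ℂ).toRingHom (fun i : Fin (N + 1) => b0 ω ^ (i : ℕ) * b1 ω ^ (N - i))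
      (Fin.last N)
    simp only [Fin.val_last, Nat.sub_self, pow_zero, mul_one, AlgHom.toRingHom_eq_coe, RingHom.coe_coe] at h1
    rw [hMdet] at h1
    rw [h1]
    refine Finset.sum_congr rfl fun k _ => ?_
    congr 1
    rw [lamG, ← fin_sum N (fun i => aeval (exp ω) (Pk N P k i) * b0 ω ^ i * b1 ω ^ (N - i))]
    refine Finset.sum_congr rfl fun i _ => ?_
    rw [hM, Matrix.of_apply]
    ring
  have hpol : ∀ p : ℤ[X], AnalyticAt ℂ (fun ω : ℂ => aeval (exp ω) p) w := fun p => by
    have h1 : Differentiable ℂ (fun ω : ℂ => aeval (exp ω) p) :=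
      (Polynomial.differentiable_aeval p).comp Complex.differentiable_exp
    exact h1.analyticAt w
  have hb0an : AnalyticAt ℂ b0 w := by
    have h1 : Differentiable ℂ b0 := fun ω => (hsol ω).1.differentiableAt
    exact h1.analyticAt w
  have hb0anN : AnalyticAt ℂ (fun ω => b0 ω ^ N) w := hb0an.pow N
  have hord2 : ((N ^ 2 + n / s + 1 : ℕ) : ℕ∞) ≤ analyticOrderAt (fun ω : ℂ => aeval (exp ω) (Det N P)) w := by
    have h1 : ((N ^ 2 + n / s + 1 : ℕ) : ℕ∞) ≤
        analyticOrderAt ((fun ω : ℂ => aeval (exp ω) (Det N P)) * (fun ω => b0 ω ^ N)) w := by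
      have e1 : ((fun ω : ℂ => aeval (exp ω) (Det N P)) * (fun ω => b0 ω ^ N)) = ∑ k : Fin (N + 1),
          ((fun ω : ℂ => aeval (exp ω) (M.adjugate (Fin.last N) k)) * lamG N (Pk N P k) b0 b1) := by
        funext ω
        rw [Pi.mul_apply, Finset.sum_apply, hcr ω]
        rfl
      rw [e1]
      refine order_sum _ _ w _ fun k _ => ?_
      rw [analyticOrderAt_mul (hpol _) ((hdiff k).analyticAt w)]
      exact (hord k (by have := k.isLt; omega)).trans le_add_self
    rw [analyticOrderAt_mul (hpol _) hb0anN] at h1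
    have h2 : analyticOrderAt (fun ω => b0 ω ^ N) w = 0 := by
      rw [AnalyticAt.analyticOrderAt_eq_zero hb0anN]
      exact pow_ne_zero N hb0w
    rwa [h2, add_zero] at h1
  -- the complex polynomial
  set p : ℂ[X] := (Det N P).map (Int.castRingHom ℂ) with hp
  have hp0 : p ≠ 0 := (Polynomial.map_ne_zero_iff (RingHom.injective_int (Int.castRingHom ℂ))).mpr hdet
  have hpev : ∀ z : ℂ, p.eval z = aeval z (Det N P) := fun z => by
    rw [hp, Polynomial.eval_map, Polynomial.aeval_def]; rfl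
  have hord3 : ((N ^ 2 + n / s + 1 : ℕ) : ℕ∞) ≤ analyticOrderAt (fun z => p.eval z) (exp w) := by
    rw [← analyticOrderAt_comp_of_deriv_ne_zero (f := fun z => p.eval z) (g := exp) (z₀ := w)
      (Complex.differentiable_exp.analyticAt w) (by rw [Complex.deriv_exp]; exact Complex.exp_ne_zero w)]
    have : (fun z => p.eval z) ∘ exp = fun ω : ℂ => aeval (exp ω) (Det N P) := by
      funext ω
      exact hpev _
    rw [this]
    exact hord2
  have hdvd1 := order_poly p hp0 (exp w) _ hord3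
  -- divisibility by a power of `X`
  have hdvd2 : (X : ℂ[X]) ^ TT N s n ∣ p := by
    have h1 := cramer M toPS (fun i : Fin (N + 1) => bs 0 ^ (i : ℕ) * bs 1 ^ (N - i)) 0
    simp only [Fin.val_zero, pow_zero, one_mul, Nat.sub_zero] at h1
    rw [hMdet] at h1
    have h2 : (PowerSeries.X : PowerSeries ℚ) ^ TT N s n ∣ toPS (Det N P) * bs 1 ^ N := by
      rw [h1]
      refine Finset.dvd_sum fun k _ => dvd_mul_of_dvd_right ?_ _
      have e1 : ∑ j : Fin (N + 1), toPS (M k j) * (bs 0 ^ (j : ℕ) * bs 1 ^ (N - j)) = LamF N (Pk N P k) := by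
        rw [LamF_eq, Finset.sum_range]
        refine Finset.sum_congr rfl fun j _ => ?_
        rw [hM, Matrix.of_apply]
        ring
      rw [e1]
      exact dvd_LamF N _ P hz hdvd k
    have hunit : IsUnit (bs 1 ^ N) := by
      refine IsUnit.pow N ?_
      rw [PowerSeries.isUnit_iff_constantCoeff, ← PowerSeries.coeff_zero_eq_constantCoeff_apply, bs,
        PowerSeries.coeff_mk]
      simp
    have h3 : (PowerSeries.X : PowerSeries ℚ) ^ TT N s n ∣ toPS (Det N P) := (hunit.dvd_mul_right).mp h2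
    rw [PowerSeries.X_pow_dvd_iff] at h3
    rw [Polynomial.X_pow_dvd_iff]
    intro d hd
    have h4 := h3 d hd
    rw [toPS_apply, Polynomial.coeff_coe, Polynomial.coeff_map] at h4
    have h5 : (Det N P).coeff d = 0 := by
      have : (((Det N P).coeff d : ℤ) : ℚ) = 0 := h4
      exact_mod_cast this
    rw [hp, Polynomial.coeff_map, h5, map_zero]
  have hcop : IsCoprime ((X : ℂ[X]) ^ TT N s n) ((X - C (exp w)) ^ (N ^ 2 + n / s + 1)) := by
    refine IsCoprime.pow ?_
    have h1 : IsCoprime (X - C (0 : ℂ)) (X - C (exp w)) := by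
      refine Polynomial.isCoprime_X_sub_C_of_isUnit_sub ?_
      rw [zero_sub]
      exact (isUnit_iff_ne_zero.mpr (Complex.exp_ne_zero w)).neg
    rwa [map_zero, sub_zero] at h1
  have hdvd3 := hcop.mul_dvd hdvd2 hdvd1
  have hle := Polynomial.natDegree_le_of_dvd hdvd3 hp0
  have hmon1 : ((X : ℂ[X]) ^ TT N s n).Monic := Polynomial.monic_X_pow _
  have hmon2 : ((X - C (exp w)) ^ (N ^ 2 + n / s + 1) : ℂ[X]).Monic := (Polynomial.monic_X_sub_C _).pow _
  rw [hmon1.natDegree_mul hmon2, Polynomial.natDegree_X_pow, (Polynomial.monic_X_sub_C (exp w)).natDegree_pow,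
    Polynomial.natDegree_X_sub_C, mul_one] at hle
  have hle2 : p.natDegree ≤ (N + 1) * (n + N) := (Polynomial.natDegree_map_le).trans (natDegree_Det N P n hdeg)
  have hle3 := hle.trans hle2
  have hns : n / s ≤ n := Nat.div_le_self n s
  have hTT : TT N s n + (n / s + 1) = (N + 1) * (n + 1) := by
    rw [TT]
    refine Nat.sub_add_cancel ?_
    nlinarith
  nlinarith [hle3, hTT]

end Pool.Agent.Y986.SG
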