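import Pool.Agent.Y986.SG.Iter

set_option autoImplicit false

open Complex Polynomial Filter Topology

namespace Pool.Agent.Y986.SG

open Pool.Agent.Y245.SG

/-- the polynomial in the shift variable -/
noncomputable def Ph (N : ℕ) (a : ℕ → ℂ) (b0 b1 v0 v1 : ℂ) : ℂ[X] :=
  ∑ i ∈ Finset.range (N + 1), C (a i) * (C b0 * X + C v0) ^ i * (C b1 * X + C v1) ^ (N - i)

theorem lin_natDegree (b v : ℂ) : (C b * X + C v : ℂ[X]).natDegree ≤ 1 := Polynomial.natDegree_linear_le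

theorem lin_coeff (b v : ℂ) : (C b * X + C v : ℂ[X]).coeff 1 = b := by
  simp [Polynomial.coeff_C]

theorem Ph_natDegree (N : ℕ) (a : ℕ → ℂ) (b0 b1 v0 v1 : ℂ) : (Ph N a b0 b1 v0 v1).natDegree ≤ N := by
  refine Polynomial.natDegree_sum_le_of_forall_le _ _ fun i hi => ?_
  have hi' : i ≤ N := by have := Finset.mem_range.mp hi; omega
  have h1 : (C (a i) * (C b0 * X + C v0) ^ i : ℂ[X]).natDegree ≤ i := by
    refine (Polynomial.natDegree_C_mul_le _ _).trans ?_
    have := Polynomial.natDegree_pow_le_of_le i (lin_natDegree b0 v0)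
    simpa using this
  have h2 : ((C b1 * X + C v1) ^ (N - i) : ℂ[X]).natDegree ≤ N - i := by
    have := Polynomial.natDegree_pow_le_of_le (N - i) (lin_natDegree b1 v1)
    simpa using this
  have h3 := Polynomial.natDegree_mul_le_of_le h1 h2
  have e : i + (N - i) = N := by omega
  rwa [e] at h3

theorem Ph_coeff (N : ℕ) (a : ℕ → ℂ) (b0 b1 v0 v1 : ℂ) :
    (Ph N a b0 b1 v0 v1).coeff N = ∑ i ∈ Finset.range (N + 1), a i * b0 ^ i * b1 ^ (N - i) := by
  rw [Ph, Polynomial.finsetSum_coeff]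
  refine Finset.sum_congr rfl fun i hi => ?_
  have hi' : i ≤ N := by have := Finset.mem_range.mp hi; omega
  have h1 : (C (a i) * (C b0 * X + C v0) ^ i : ℂ[X]).natDegree ≤ i := by
    refine (Polynomial.natDegree_C_mul_le _ _).trans ?_
    have := Polynomial.natDegree_pow_le_of_le i (lin_natDegree b0 v0)
    simpa using this
  have h2 : ((C b1 * X + C v1) ^ (N - i) : ℂ[X]).natDegree ≤ N - i := by
    have := Polynomial.natDegree_pow_le_of_le (N - i) (lin_natDegree b1 v1)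
    simpa using this
  have h3 := Polynomial.coeff_mul_add_eq_of_natDegree_le h1 h2
  have e : i + (N - i) = N := by omega
  rw [e] at h3
  rw [h3, Polynomial.coeff_C_mul]
  have h4 := Polynomial.coeff_pow_of_natDegree_le (n := 1) (m := i) (lin_natDegree b0 v0)
  have h5 := Polynomial.coeff_pow_of_natDegree_le (n := 1) (m := N - i) (lin_natDegree b1 v1)
  rw [mul_one] at h4 h5
  rw [h4, h5, lin_coeff, lin_coeff]

theorem Ph_eval (N : ℕ) (a : ℕ → ℂ) (b0 b1 v0 v1 t : ℂ) :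
    ∑ j ∈ Finset.range (N + 1), t ^ j * (Ph N a b0 b1 v0 v1).coeff j =
      ∑ i ∈ Finset.range (N + 1), a i * (b0 * t + v0) ^ i * (b1 * t + v1) ^ (N - i) := by
  have h1 : Polynomial.eval t (Ph N a b0 b1 v0 v1) =
      ∑ i ∈ Finset.range (N + 1), a i * (b0 * t + v0) ^ i * (b1 * t + v1) ^ (N - i) := by
    rw [Ph, Polynomial.eval_finsetSum]
    refine Finset.sum_congr rfl fun i _ => ?_
    simp
  rw [← h1, Polynomial.eval_eq_sum_range' (Nat.lt_succ_of_le (Ph_natDegree N a b0 b1 v0 v1)) t]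
  exact Finset.sum_congr rfl fun j _ => mul_comm _ _

theorem ze2 : S_ZE2 := by
  intro hB hBNC hBINF hSTEP hSOL1 hSOL2 hODE hLOG hZE1 N P hP hne hdet
  obtain ⟨v, hv0, hv⟩ := Matrix.exists_vecMul_eq_zero_iff.mpr hdet
  obtain ⟨v0, v1, hd0, hd1, hp0, hp1, hs2⟩ := hSOL2 hB
  have hs1 := hSOL1 hB
  -- the solutions with parameter
  let xx : ℕ → ℂ → ℂ := fun c ω => (ω * Bn 0 (exp ω) + v0 ω) + (c : ℂ) * Bn 0 (exp ω)
  let yy : ℕ → ℂ → ℂ := fun c ω => (ω * Bn 1 (exp ω) + v1 ω) + (c : ℂ) * Bn 1 (exp ω)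
  have hsys : ∀ c, Sys (xx c) (yy c) := by
    intro c ω
    have h1 := (hs2 ω).1.add ((hs1 ω).1.const_mul (c : ℂ))
    have h2 := (hs2 ω).2.add ((hs1 ω).2.const_mul (c : ℂ))
    refine ⟨?_, ?_⟩
    · refine h1.congr_deriv ?_
      simp only [yy]; ring
    · refine h2.congr_deriv ?_
      simp only [xx, yy]; ring
  let h : ℕ → ℂ → ℂ := fun m => lamG N P (xx m) (yy m)
  let q : ℕ → ℂ → ℂ := fun k ω => if hk : k < N + 1 then aeval (exp ω) (v ⟨k, hk⟩) else 0
  have hq1 : ∀ k, Differentiable ℂ (q k) := by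
    intro k
    by_cases hk : k < N + 1
    · have : q k = fun ω => aeval (exp ω) (v ⟨k, hk⟩) := by funext ω; simp only [q, dif_pos hk]
      rw [this]
      exact (Polynomial.differentiable_aeval (v ⟨k, hk⟩)).comp Complex.differentiable_exp
    · have : q k = fun _ => 0 := by funext ω; simp only [q, dif_neg hk]
      rw [this]
      exact differentiable_const _
  have hq2 : ∃ k ≤ N, ∃ ω, q k ω ≠ 0 := by
    obtain ⟨k, hk⟩ := Function.ne_iff.mp hv0
    obtain ⟨ω, hω⟩ := exists_exp_ne (v k) hk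
    refine ⟨k, by have := k.isLt; omega, ω, ?_⟩
    simp only [q, dif_pos k.isLt]
    exact hω
  have hq3 : ∀ m ≤ N, ∀ ω, ∑ k ∈ Finset.range (N + 1), q k ω * iteratedDeriv k (h m) ω = 0 := by
    intro m _ ω
    have e1 : ∀ k ∈ Finset.range (N + 1), q k ω * iteratedDeriv k (h m) ω =
        ∑ i ∈ Finset.range (N + 1), q k ω * aeval (exp ω) (Pk N P k i) * (xx m ω ^ i * yy m ω ^ (N - i)) := by
      intro k _
      rw [show iteratedDeriv k (h m) ω = lamG N (Pk N P k) (xx m) (yy m) ω by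
        rw [(iter hSTEP N P (xx m) (yy m) hP (hsys m) k).2], lamG, Finset.mul_sum]
      exact Finset.sum_congr rfl fun i _ => by ring
    rw [Finset.sum_congr rfl e1, Finset.sum_comm]
    refine Finset.sum_eq_zero fun i hi => ?_
    rw [← Finset.sum_mul]
    have e2 : ∑ k ∈ Finset.range (N + 1), q k ω * aeval (exp ω) (Pk N P k i) = 0 := by
      rw [Finset.sum_range]
      have hi' : i < N + 1 := Finset.mem_range.mp hi
      have h2 := congrFun hv ⟨i, hi'⟩
      rw [Pi.zero_apply, Matrix.vecMul, dotProduct] at h2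
      have h3 := congrArg (aeval (exp ω)) h2
      rw [map_zero, map_sum] at h3
      rw [← h3]
      refine Finset.sum_congr rfl fun k _ => ?_
      rw [map_mul]
      simp only [q, dif_pos k.isLt, Matrix.of_apply]
    rw [e2, zero_mul]
  obtain ⟨e, ⟨m0, hm0, hem0⟩, he⟩ := hODE N q h hq1 hq2
    (fun m => lamG_diff hSTEP N P (xx m) (yy m) hP (hsys m)) hq3
  -- the coefficients
  let Θ : ℕ → ℂ → ℂ := fun j ω =>
    (Ph N (fun i => aeval (exp ω) (P i)) (Bn 0 (exp ω)) (Bn 1 (exp ω)) (v0 ω) (v1 ω)).coeff j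
  have hper : ∀ ω : ℂ, exp (ω + 2 * Real.pi * I) = exp ω := fun ω => by
    rw [Complex.exp_add, Complex.exp_two_pi_mul_I, mul_one]
  have hΘ1 : ∀ j ω, Θ j (ω + 2 * Real.pi * I) = Θ j ω := by
    intro j ω
    simp only [Θ, hper, hp0, hp1]
  have hΘ2 : ∃ ω, Θ N ω ≠ 0 := by
    obtain ⟨ω, hω⟩ := hZE1 hB hBNC hBINF N P hne
    refine ⟨ω, ?_⟩
    simp only [Θ]
    rw [Ph_coeff]
    exact hω
  have hΘ3 : ∀ ω, ∑ m ∈ Finset.range (N + 1), e m * ∑ j ∈ Finset.range (N + 1), (ω + m) ^ j * Θ j ω = 0 := by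
    intro ω
    rw [← he ω]
    refine Finset.sum_congr rfl fun m _ => ?_
    congr 1
    simp only [Θ]
    rw [Ph_eval]
    simp only [h, lamG, xx, yy]
    refine Finset.sum_congr rfl fun i _ => ?_
    have e1 : Bn 0 (exp ω) * (ω + m) + v0 ω = ω * Bn 0 (exp ω) + v0 ω + m * Bn 0 (exp ω) := by ring
    have e2 : Bn 1 (exp ω) * (ω + m) + v1 ω = ω * Bn 1 (exp ω) + v1 ω + m * Bn 1 (exp ω) := by ring
    rw [e1, e2]
  exact hem0 (hLOG N Θ e hΘ1 hΘ2 hΘ3 m0 hm0)

end Pool.Agent.Y986.SG
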