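import Pool.Agent.Y245.SG.Stm

set_option autoImplicit false

open Complex Polynomial Filter Topology

namespace Pool.Agent.Y986.SG

open Pool.Agent.Y245.SG

theorem Pk_succ (N : ℕ) (P : ℕ → ℤ[X]) (k : ℕ) : Pk N P (k + 1) = step N (Pk N P k) := by
  rw [Pk, Function.iterate_succ_apply']; rfl

theorem Pk_zero (N : ℕ) (P : ℕ → ℤ[X]) : Pk N P 0 = P := rfl

/-- the iterates of `D` on the forms -/
theorem iter (hS : S_STEP) (N : ℕ) (P : ℕ → ℤ[X]) (x y : ℂ → ℂ) (hP : ∀ i, N < i → P i = 0) (hxy : Sys x y) (k : ℕ) :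
    (∀ i, N < i → Pk N P k i = 0) ∧ iteratedDeriv k (lamG N P x y) = lamG N (Pk N P k) x y := by
  induction k with
  | zero => exact ⟨hP, by rw [iteratedDeriv_zero]; rfl⟩
  | succ k ih =>
    have h := hS N (Pk N P k) x y ih.1 hxy
    refine ⟨fun i hi => by rw [Pk_succ]; exact h.1 i hi, ?_⟩
    rw [iteratedDeriv_succ, ih.2, Pk_succ]
    funext ω
    exact (h.2 ω).deriv

theorem lamG_diff (hS : S_STEP) (N : ℕ) (P : ℕ → ℤ[X]) (x y : ℂ → ℂ) (hP : ∀ i, N < i → P i = 0) (hxy : Sys x y) :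
    Differentiable ℂ (lamG N P x y) := fun ω => ((hS N P x y hP hxy).2 ω).differentiableAt

/-- a nonzero integral polynomial does not vanish at some `exp ω` -/
theorem exists_exp_ne (p : ℤ[X]) (hp : p ≠ 0) : ∃ ω : ℂ, aeval (exp ω) p ≠ 0 := by
  by_contra hcon
  push Not at hcon
  have h1 : (X * p).map (Int.castRingHom ℂ) = 0 := by
    refine Polynomial.funext fun z => ?_
    rw [Polynomial.eval_zero, Polynomial.map_mul, Polynomial.eval_mul, Polynomial.map_X, Polynomial.eval_X]
    by_cases hz : z = 0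
    · rw [hz, zero_mul]
    · have h2 := hcon (Complex.log z)
      rw [Complex.exp_log hz] at h2
      have h3 : Polynomial.eval z (p.map (Int.castRingHom ℂ)) = aeval z p := by
        rw [Polynomial.eval_map, Polynomial.aeval_def]; rfl
      rw [h3, h2, mul_zero]
  have h2 : X * p = 0 := (Polynomial.map_eq_zero_iff (RingHom.injective_int (Int.castRingHom ℂ))).mp h1
  rcases mul_eq_zero.mp h2 with h3 | h3
  · exact Polynomial.X_ne_zero h3
  · exact hp h3

end Pool.Agent.Y986.SG
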